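import Pool.Agent.CYL.D.K.Pow
import Pool.Agent.CYG.Def

/-!
# CYL, part D: the link in the names of `CYL/Def.lean`

`KS L l` is the row operator of the honeycomb cylinder of circumference `L` on the states `Sts L l` (entries
`KS L l m m'` = transition weight `m → m'`). `Tf_zero`: it is `T(lam; 0) / kk(lam) ^ L`. `KS_pow`: its powers are the
masses of the runs of `QL`. `IsPsi.left_eig`: the vector `psi` of the homogeneous system is a left eigenvector on the
`Chi`-states.
-/

namespace Pool.Agent.CYL.DK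

open Pool.Agent.BEX Pool.Agent.QL Complex
open Pool.Agent.Hhelper14.SAW
open scoped ENNReal

/-- The row operator on `Sts L l`. -/
noncomputable def KS (L l : ℕ) : Matrix (Sts L l) (Sts L l) ℝ := KM (Sum.inl : Fin L → Lb L l)

variable {L l : ℕ}

theorem KS_nonneg (m m' : Sts L l) : 0 ≤ KS L l m m' := KM_nonneg _ _ _

theorem KS_pow_nonneg (n : ℕ) (m m' : Sts L l) : 0 ≤ (KS L l ^ n) m m' := KM_pow_nonneg _ _ _ _

/-- The powers are masses of runs: `rm ln M f t` of `QL/Defs.lean` with the lines `Sum.inl j`. -/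
theorem KS_pow (M : ℕ) (m m' : Sts L l) :
    ENNReal.ofReal ((KS L l ^ M) m m') = rm (Sum.inl : Fin L → Lb L l) M m.1 m'.1 := KM_pow _ _ _ _

theorem rap_zero : (rap (fun _ => 0) : Lb L l → ℂ) = 0 := by
  funext x
  rcases x with x | x <;> rfl

/-- The transfer matrix at `lam` with all rapidities `0` is the row operator times `kk(lam) ^ L`. -/
theorem Tf_zero (F : Sts L l → ℂ) (m : Sts L l) :
    Tf lam (fun _ => 0) F m = kk lam ^ L * ∑ m', ((KS L l m m' : ℝ) : ℂ) * F m' := by
  unfold Tf
  rw [rap_zero]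
  exact Tt_eq_KM _ F m

/-- `psi` is a left eigenvector of the row operator, on the `Chi`-states. -/
theorem left_eig {psi : Sts L l → ℝ} {t : ℂ → ℂ} (h : IsPsi (fun _ => 0) psi t) (m' : Sts L l) (hm' : Chi m') :
    ((∑ m, psi m * KS L l m m' : ℝ) : ℂ) = t lam / kk lam ^ L * ((psi m' : ℝ) : ℂ) := by
  have h1 := h.eig lam (Pi.single m' 1) (by
    intro m hm
    rw [Pi.single_apply, if_neg]
    rintro rfl
    exact hm hm')
  have hk : kk lam ^ L ≠ 0 := pow_ne_zero _ kk_lam_ne
  simp only [Tf_zero, Pi.single_apply, mul_ite, mul_one, mul_zero, Finset.sum_ite_eq', Finset.mem_univ,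
    if_true] at h1
  rw [div_mul_eq_mul_div, eq_div_iff hk, ← h1]
  push_cast
  rw [Finset.sum_mul]
  refine Finset.sum_congr rfl fun m _ => ?_
  ring

/-- `kk lam = sin (3 lam) = sin (3 pi / 8)` (real number). -/
theorem kk_lam_real : kk lam = ((Real.sin (3 * Real.pi / 8) : ℝ) : ℂ) := by
  have h1 : kk lam = sin (3 * lam) := by
    rw [kk_lam, sin3_eq_cos]
  rw [h1]
  unfold lam
  push_cast
  congr 1
  ring

end Pool.Agent.CYL.DK
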